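import Pool.Agent.Run7.h502.NL.F4a

/-!
# Project NL: the piece F4
-/

set_option autoImplicit false

namespace Run7.h502.NL

open Finset Filter Topology Pool.Agent.TH91.RF Pool.Agent.TH91.NB Pool.Agent.TH91.LG
open scoped commutatorElement
open Run7.h664.NL

section main

variable {N d : ℕ} (C : Core N) (P : Fin d → Polynomial ℤ) (Z : ℕ → Mt N)

/-- the cocycle identity -/
theorem LL_coc {M : ℕ} (hM : 1 ≤ M) (hP : ∀ i, (P i).natDegree ≤ M) (h0 : Z 0 = 0)
    (hZ : ∀ n, Z n ∈ (mF N).F (max 1 n))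
    (hs : ∀ s : ℚ, IsNilpotent.exp (s • C.Mg) * IsNilpotent.exp (s • (-C.Mc)) =
        IsNilpotent.exp (∑ n ∈ range (N + 1), s ^ n • Z n)) (h h' : ℤ) :
    IsNilpotent.exp (LL C P Z h) * IsNilpotent.exp (sh h (LL C P Z h')) =
      IsNilpotent.exp (LL C P Z (h + h')) := by
  funext p
  rw [Pi.mul_apply, exp_apply (LL_mem C P Z hM hP h0 hZ h),
    exp_apply (shf N d M 1 h _ (LL_mem C P Z hM hP h0 hZ h')).1,
    exp_apply (LL_mem C P Z hM hP h0 hZ (h + h')), sh_apply, exp_LL C P Z hZ hs,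
    exp_LL C P Z hZ hs, exp_LL C P Z hZ hs, cc_add, Units.val_mul]

/-- the basic step -/
theorem step {M : ℕ} (hM : 1 ≤ M) (hP : ∀ i, (P i).natDegree ≤ M) (h0 : Z 0 = 0)
    (h1 : Z 1 = C.Mg - C.Mc)
    (hZ : ∀ n, Z n ∈ (mF N).F (max 1 n))
    (hs : ∀ s : ℚ, IsNilpotent.exp (s • C.Mg) * IsNilpotent.exp (s • (-C.Mc)) =
        IsNilpotent.exp (∑ n ∈ range (N + 1), s ^ n • Z n))
    (T J : Submodule ℝ (AF N d)) (hT : ∀ x ∈ T, x ∈ (wtF N d M).F 1) (hJT : J ≤ T)
    (hbr : ∀ x ∈ T, ∀ y ∈ T, x * y - y * x ∈ J)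
    (hsh : ∀ x ∈ T, ∀ h : ℕ, sh (h : ℤ) x - x ∈ J) (hL : ∀ h : ℕ, LL C P Z h ∈ T) :
    Bf C P (C.Mg - C.Mc) 0 - LL C P Z 1 ∈ J ∧ ∀ h : ℕ, LL C P Z h - (h : ℝ) • LL C P Z 1 ∈ J := by
  have hlat : LieLat (wtF N d M) T.toAddSubgroup :=
    ⟨fun x hx => hT x hx, fun u hu v hv => qs T _ (hJT (hbr u hu v hv))⟩
  have hidl : LieIdl (M * N + 1) T.toAddSubgroup J.toAddSubgroup :=
    ⟨fun x hx => hJT hx, fun u hu v hv => qs J _ (hbr u hu v (hJT hv))⟩
  have hshT : ∀ x ∈ T, ∀ h : ℕ, sh (h : ℤ) x ∈ T := by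
    intro x hx h
    have := T.add_mem (hJT (hsh x hx h)) hx
    simpa using this
  have hadd : ∀ h h' : ℕ, LL C P Z (h + h' : ℕ) - (LL C P Z h + LL C P Z h') ∈ J := by
    intro h h'
    obtain ⟨j, hj, he⟩ := hlat.exp_mul_add hidl (x := LL C P Z h) (y := sh (h : ℤ) (LL C P Z h'))
      (hL h) (hshT _ (hL h') h) (qs J _ (hbr _ (hL h) _ (hshT _ (hL h') h)))
    rw [LL_coc C P Z hM hP h0 hZ hs] at he
    have hmem : LL C P Z h + sh (h : ℤ) (LL C P Z h') + j ∈ T :=
      T.add_mem (T.add_mem (hL h) (hshT _ (hL h') h)) (hJT hj)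
    have h3 := (wtF N d M).exp_inj (LL_mem C P Z hM hP h0 hZ _) (hT _ hmem) he
    rw [Nat.cast_add, h3]
    have e : LL C P Z h + sh (h : ℤ) (LL C P Z h') + j - (LL C P Z h + LL C P Z h') =
        (sh (h : ℤ) (LL C P Z h') - LL C P Z h') + j := by abel
    rw [e]
    exact J.add_mem (hsh _ (hL h') h) hj
  have hlin : ∀ h : ℕ, LL C P Z h - (h : ℝ) • LL C P Z 1 ∈ J := by
    intro h
    induction h with
    | zero =>
      rw [Nat.cast_zero, Nat.cast_zero, LL_zero C P Z h0, zero_smul, sub_zero]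
      exact J.zero_mem
    | succ h ih =>
      have e : LL C P Z ((h + 1 : ℕ) : ℤ) - ((h + 1 : ℕ) : ℝ) • LL C P Z 1 =
          (LL C P Z ((h + 1 : ℕ) : ℤ) - (LL C P Z h + LL C P Z (1 : ℕ))) +
            (LL C P Z h - (h : ℝ) • LL C P Z 1) := by
        have e2 : ((h + 1 : ℕ) : ℝ) = (h : ℝ) + 1 := by push_cast; ring
        rw [e2, add_smul, one_smul, Nat.cast_one]
        abel
      rw [e]
      exact J.add_mem (hadd h 1) ih
  refine ⟨?_, hlin⟩
  set D := N * M + 1 with hD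
  have h5 := vdm_mem D J.toAddSubgroup
    (fun m => zz C P Z m - if m = 1 then LL C P Z 1 else 0) (by
      intro s
      have h6 := hlin s
      rw [LL_eq C P Z hP D (by omega) s] at h6
      have e : ∑ n ∈ range (D + 1), ((s ^ n : ℕ) : ℤ) •
          (zz C P Z n - if n = 1 then LL C P Z 1 else 0) =
          ∑ m ∈ range (D + 1), (((s : ℤ) : ℝ) ^ m) • zz C P Z m - (s : ℝ) • LL C P Z 1 := by
        simp_rw [smul_sub]
        rw [sum_sub_distrib]
        congr 1
        · refine sum_congr rfl fun n _ => ?_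
          rw [← Int.cast_smul_eq_zsmul ℝ]
          push_cast
          rfl
        · rw [sum_eq_single 1]
          · rw [if_pos rfl, ← Int.cast_smul_eq_zsmul ℝ]
            push_cast
            rw [pow_one]
          · intro n _ hn
            rw [if_neg hn, smul_zero]
          · intro h
            exact absurd (mem_range.2 (by omega)) h
      rw [Submodule.mem_toAddSubgroup, e]
      exact h6) 1 (by omega)
  rw [Submodule.mem_toAddSubgroup, if_pos rfl, zz_one C P Z h0 h1,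
    ← Int.cast_smul_eq_zsmul ℝ] at h5
  have h7 := J.smul_mem ((vdm D : ℤ) : ℝ)⁻¹ h5
  rwa [inv_smul_smul₀ (by exact_mod_cast vdm_ne_zero D)] at h7

end main

theorem F4_aux : S_ABM → S_HHP → ∀ (N d : ℕ) (C : Core N) (P : Fin d → Polynomial ℤ),
  ∃ j ∈ jj C P, ∀ p, (((z1 C P).u p : (Mt N)ˣ) : Mt N) =
    IsNilpotent.exp ((Bf C P (C.Mg - C.Mc) 0 + j) p) := by
  intro hABM hHHP N d C P
  -- the bound of the degrees
  set M := 1 + ∑ i, (P i).natDegree with hMd
  have hM : 1 ≤ M := by omega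
  have hP : ∀ i, (P i).natDegree ≤ M := by
    intro i
    have := Finset.single_le_sum (f := fun i => (P i).natDegree) (fun _ _ => Nat.zero_le _)
      (Finset.mem_univ i)
    omega
  obtain ⟨H1, H2, H3, -, -⟩ := hHHP N d M C P hM hP
  obtain ⟨Z, h0, h1, hZ, hs, -⟩ := (mF N).bch C.supMg (Submodule.neg_mem _ C.supMc)
  have h1' : Z 1 = C.Mg - C.Mc := by rw [h1, sub_eq_add_neg]
  have hBf : Bf C P (C.Mg - C.Mc) 0 ∈ hh C P :=
    subset_lieSp _ ⟨_, C.diff, 0, Or.inr rfl⟩
  -- the induction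
  have hind : ∀ t : ℕ, ∀ h : ℕ, LL C P Z h ∈ hh C P ⊔ wtS N d M (t + 1) := by
    intro t
    induction t with
    | zero =>
      intro h
      exact Submodule.mem_sup_right (mem_wtF.1 (LL_mem C P Z hM hP h0 hZ h))
    | succ t ih =>
      have hTF : ∀ x ∈ hh C P ⊔ wtS N d M (t + 1), x ∈ (wtF N d M).F 1 := by
        intro x hx
        obtain ⟨a, ha, b, hb, rfl⟩ := Submodule.mem_sup.1 hx
        exact Submodule.add_mem _ (H2 a ha) (mem_wtF.2 (wtS_anti (by omega) hb))
      have hJT : hh C P ⊔ wtS N d M (t + 1 + 1) ≤ hh C P ⊔ wtS N d M (t + 1) :=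
        sup_le_sup_left (wtS_anti (by omega)) _
      have hst := step C P Z hM hP h0 h1' hZ hs (hh C P ⊔ wtS N d M (t + 1))
        (hh C P ⊔ wtS N d M (t + 1 + 1)) hTF hJT (by
          intro x hx y hy
          obtain ⟨a, ha, b, hb, rfl⟩ := Submodule.mem_sup.1 hx
          obtain ⟨a', ha', b', hb', rfl⟩ := Submodule.mem_sup.1 hy
          have e : (a + b) * (a' + b') - (a' + b') * (a + b) = (a * a' - a' * a) +
              ((a * b' - b' * a) + (b * a' - a' * b) + (b * b' - b' * b)) := by noncomm_ring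
          rw [e]
          refine Submodule.add_mem _ (Submodule.mem_sup_left (lieSp_br _ ha ha'))
            (Submodule.mem_sup_right ?_)
          have ha1 : a ∈ wtS N d M 1 := mem_wtF.1 (H2 a ha)
          have ha'1 : a' ∈ wtS N d M 1 := mem_wtF.1 (H2 a' ha')
          have hb1 : b ∈ wtS N d M 1 := wtS_anti (by omega) hb
          have c1 : ∀ x y : AF N d, x ∈ wtS N d M 1 → y ∈ wtS N d M (t + 1) →
              x * y - y * x ∈ wtS N d M (t + 1 + 1) := by
            intro x y hx hy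
            refine Submodule.sub_mem _ ?_ (wtS_mul hy hx)
            have := wtS_mul hx hy
            rwa [show 1 + (t + 1) = t + 1 + 1 by ring] at this
          refine Submodule.add_mem _ (Submodule.add_mem _ (c1 _ _ ha1 hb') ?_) (c1 _ _ hb1 hb')
          rw [← neg_sub]
          exact Submodule.neg_mem _ (c1 _ _ ha'1 hb)) (by
          intro x hx h
          obtain ⟨a, ha, b, hb, rfl⟩ := Submodule.mem_sup.1 hx
          rw [map_add]
          have e : sh (h : ℤ) a + sh (h : ℤ) b - (a + b) = (sh (h : ℤ) a - a) +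
            (sh (h : ℤ) b - b) := by abel
          rw [e]
          refine Submodule.add_mem _ (Submodule.mem_sup_left
            (Submodule.sub_mem _ (H3 a ha h) ha)) (Submodule.mem_sup_right ?_)
          exact mem_wtF.1 (shf N d M (t + 1) h b (mem_wtF.2 hb)).2) ih
      obtain ⟨h8, h9⟩ := hst
      have h10 : LL C P Z 1 ∈ hh C P ⊔ wtS N d M (t + 1 + 1) := by
        have := Submodule.sub_mem _ (Submodule.mem_sup_left hBf) h8
        simpa using this
      intro h
      have := Submodule.add_mem _ (h9 h) (Submodule.smul_mem _ (h : ℝ) h10)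
      simpa using this
  have hLh : ∀ h : ℕ, LL C P Z h ∈ hh C P := by
    intro h
    obtain ⟨a, ha, b, hb, hab⟩ := Submodule.mem_sup.1 (hind (M * N) h)
    have : b = 0 := (wtF N d M).bot b (mem_wtF.2 hb)
    rw [← hab, this, add_zero]
    exact ha
  have hjj : jj C P ≤ hh C P := by
    unfold jj
    rw [Submodule.span_le]
    rintro x (⟨u, hu, v, hv, rfl⟩ | ⟨u, hu, rfl⟩)
    · exact lieSp_br _ hu hv
    · exact Submodule.sub_mem _ (H3 u hu 1) hu
  obtain ⟨h8, -⟩ := step C P Z hM hP h0 h1' hZ hs (hh C P) (jj C P) H2 hjj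
    (fun x hx y hy => Submodule.subset_span (Or.inl ⟨x, hx, y, hy, rfl⟩)) (by
      intro x hx h
      induction h with
      | zero =>
        rw [Nat.cast_zero, sh_zero, sub_self]
        exact Submodule.zero_mem _
      | succ h ih =>
        have e : sh ((h + 1 : ℕ) : ℤ) x - x = (sh 1 (sh (h : ℤ) x) - sh (h : ℤ) x) +
            (sh (h : ℤ) x - x) := by
          rw [sh_add, add_comm (1 : ℤ), Nat.cast_add, Nat.cast_one]
          abel
        rw [e]
        exact Submodule.add_mem _ (Submodule.subset_span (Or.inr ⟨_, H3 x hx h, rfl⟩)) ih) hLh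
  refine ⟨-(Bf C P (C.Mg - C.Mc) 0 - LL C P Z 1), Submodule.neg_mem _ h8, fun p => ?_⟩
  have e : Bf C P (C.Mg - C.Mc) 0 + -(Bf C P (C.Mg - C.Mc) 0 - LL C P Z 1) = LL C P Z 1 := by
    abel
  rw [e, exp_LL C P Z hZ hs]
  rfl

theorem T_F4 : S_F4 := fun h1 h2 _ => F4_aux h1 h2

end Run7.h502.NL
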