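import Pool.Agent.Run7.h664.NL.Iface

/-!
# Project NL: the piece UNI
-/

set_option autoImplicit false

namespace Run7.h502.NL

open Finset Filter Topology Pool.Agent.TH91.RF Pool.Agent.TH91.NB Pool.Agent.TH91.LG
open scoped commutatorElement
open Run7.h664.NL

theorem natDegree_shift_sub (q : Polynomial ℝ) (c : ℝ) :
    q.comp (Polynomial.X + Polynomial.C c) - q = 0 ∨
      (q.comp (Polynomial.X + Polynomial.C c) - q).natDegree + 1 ≤ q.natDegree := by
  rcases Nat.eq_zero_or_pos q.natDegree with h0 | h0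
  · left
    obtain ⟨a, rfl⟩ := Polynomial.natDegree_eq_zero.1 h0
    simp
  right
  have h1 : (Polynomial.taylor c q).natDegree = q.natDegree := Polynomial.natDegree_taylor q c
  have h2 : q.comp (Polynomial.X + Polynomial.C c) = Polynomial.taylor c q := rfl
  rw [h2]
  have hq : q ≠ 0 := by
    rintro rfl
    simp at h0
  have ht : Polynomial.taylor c q ≠ 0 := by
    intro h
    rw [h] at h1
    simp at h1
    omega
  have hlt : (Polynomial.taylor c q - q).degree < (Polynomial.taylor c q).degree := by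
    refine Polynomial.degree_sub_lt_left ?_ ht ?_
    · rw [Polynomial.degree_eq_natDegree ht, Polynomial.degree_eq_natDegree hq, h1]
    · exact Polynomial.leadingCoeff_taylor c q
  by_cases h3 : Polynomial.taylor c q - q = 0
  · rw [h3, Polynomial.natDegree_zero]
    omega
  have h4 := Polynomial.natDegree_lt_natDegree h3 hlt
  omega

theorem shf (N d M t : ℕ) (n : ℤ) (x : AF N d) (hx : x ∈ (wtF N d M).F t) :
    sh n x ∈ (wtF N d M).F t ∧ sh n x - x ∈ (wtF N d M).F (t + 1) := by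
  have h2 : sh n x - x ∈ (wtF N d M).F (t + 1) := by
    rw [mem_wtF]
    intro i r s
    obtain ⟨q, hq, hq2⟩ := mem_wtF.1 hx i r s
    refine ⟨q.comp (Polynomial.X + Polynomial.C (n : ℝ)) - q, fun l => ?_, ?_⟩
    · rw [Polynomial.eval_sub, Polynomial.eval_comp, Polynomial.eval_add, Polynomial.eval_X,
        Polynomial.eval_C, ← hq]
      have := hq (l + n)
      push_cast at this
      rw [← this]
      rfl
    · rcases hq2 with rfl | h1
      · left; simp
      rcases natDegree_shift_sub q n with h | h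
      · exact Or.inl h
      · exact Or.inr ⟨h1.1, by omega⟩
  refine ⟨?_, h2⟩
  have h3 := Submodule.add_mem _ ((wtF N d M).anti (Nat.le_succ t) h2) hx
  simpa using h3

theorem mem_of_mul_one_add {A : Type*} [Ring A] [Algebra ℚ A] {N : ℕ} (Φ : Filt A N) {c e : A}
    (hc : c ∈ Φ.F 1) (he : e ∈ Φ.F 1) {k : ℕ} (h : c * (1 + e) ∈ Φ.F k) : c ∈ Φ.F k := by
  have key : ∀ j, j + 1 ≤ k → c ∈ Φ.F (j + 1) := by
    intro j
    induction j with
    | zero => intro _; exact hc
    | succ j ih =>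
      intro hj
      have h1 := ih (by omega)
      have h2 : c = c * (1 + e) - c * e := by noncomm_ring
      rw [h2]
      exact Submodule.sub_mem _ (Φ.anti hj h) (Φ.mul h1 he)
  rcases Nat.eq_zero_or_pos k with rfl | hk
  · exact Φ.anti (Nat.zero_le 1) hc
  · have := key (k - 1) (by omega)
    rwa [Nat.sub_add_cancel hk] at this

/-- the sequence of matrices -/
def uu {N d : ℕ} (x : BG N d) : AF N d := fun p => ((x.u p : (Mt N)ˣ) : Mt N)

theorem uu_mul {N d : ℕ} (x y : BG N d) : uu (x * y) = uu x * sh x.s (uu y) := by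
  funext p
  show (((x * y).u p : (Mt N)ˣ) : Mt N) = _
  rw [BG.mul_u, Units.val_mul]
  rfl

theorem uu_one {N d : ℕ} : uu (1 : BG N d) = 1 := by
  funext p
  show (((1 : BG N d).u p : (Mt N)ˣ) : Mt N) = _
  rw [BG.one_u]
  rfl

theorem sh_one {N d : ℕ} (n : ℤ) : sh n (1 : AF N d) = 1 := rfl

/-- the members of the series -/
def HH {N d : ℕ} (M : ℕ) (G : Subgroup (BG N d))
    (hG : ∀ x ∈ G, uu x - 1 ∈ (wtF N d M).F 1) (t : ℕ) : Subgroup G where
  carrier := {x | (x : BG N d).s = 0 ∧ uu (x : BG N d) - 1 ∈ (wtF N d M).F (t + 1)}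
  mul_mem' := by
    rintro a b ⟨ha1, ha2⟩ ⟨hb1, hb2⟩
    refine ⟨?_, ?_⟩
    · rw [Subgroup.coe_mul, BG.mul_s, ha1, hb1, add_zero]
    · rw [Subgroup.coe_mul, uu_mul, ha1, sh_zero]
      have e : uu (a : BG N d) * uu (b : BG N d) - 1 = (uu (a : BG N d) - 1) * (uu (b : BG N d) - 1) +
          (uu (a : BG N d) - 1) + (uu (b : BG N d) - 1) := by noncomm_ring
      rw [e]
      exact Submodule.add_mem _ (Submodule.add_mem _
        ((wtF N d M).anti (by omega) ((wtF N d M).mul ha2 hb2)) ha2) hb2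
  one_mem' := by
    refine ⟨rfl, ?_⟩
    rw [Subgroup.coe_one, uu_one, sub_self]
    exact Submodule.zero_mem _
  inv_mem' := by
    rintro a ⟨ha1, ha2⟩
    refine ⟨?_, ?_⟩
    · rw [Subgroup.coe_inv, BG.inv_s, ha1, neg_zero]
    · have h1 := hG _ (a⁻¹).2
      have h2 : uu ((a : BG N d) * ((a⁻¹ : G) : BG N d)) = 1 := by
        rw [Subgroup.coe_inv, mul_inv_cancel, uu_one]
      rw [uu_mul, ha1, sh_zero] at h2
      have e : uu ((a⁻¹ : G) : BG N d) - 1 = -(uu (a : BG N d) - 1) -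
          (uu (a : BG N d) - 1) * (uu ((a⁻¹ : G) : BG N d) - 1) := by
        have : (uu (a : BG N d) - 1) * (uu ((a⁻¹ : G) : BG N d) - 1) =
          uu (a : BG N d) * uu ((a⁻¹ : G) : BG N d) - uu (a : BG N d) -
            uu ((a⁻¹ : G) : BG N d) + 1 := by noncomm_ring
        rw [this, h2]
        abel
      show uu ((a⁻¹ : G) : BG N d) - 1 ∈ _
      rw [e]
      exact Submodule.sub_mem _ (Submodule.neg_mem _ ha2)
        ((wtF N d M).anti (by omega) ((wtF N d M).mul ha2 h1))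

theorem mem_HH {N d : ℕ} {M : ℕ} {G : Subgroup (BG N d)}
    {hG : ∀ x ∈ G, uu x - 1 ∈ (wtF N d M).F 1} {t : ℕ} {x : G} :
    x ∈ HH M G hG t ↔ (x : BG N d).s = 0 ∧ uu (x : BG N d) - 1 ∈ (wtF N d M).F (t + 1) := Iff.rfl

theorem comm_mem {N d : ℕ} {M : ℕ} {G : Subgroup (BG N d)}
    (hG : ∀ x ∈ G, uu x - 1 ∈ (wtF N d M).F 1) {t : ℕ} {x g : BG N d} (hx : x ∈ G) (hg : g ∈ G)
    (hs : x.s = 0) (hu : uu x - 1 ∈ (wtF N d M).F (t + 1)) :
    uu (x * g * x⁻¹ * g⁻¹) - 1 ∈ (wtF N d M).F (t + 1 + 1) := by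
  set c := x * g * x⁻¹ * g⁻¹ with hc
  have hcG : c ∈ G := G.mul_mem (G.mul_mem (G.mul_mem hx hg) (G.inv_mem hx)) (G.inv_mem hg)
  have hcs : c.s = 0 := by
    rw [hc, BG.mul_s, BG.mul_s, BG.mul_s, BG.inv_s, BG.inv_s, hs]
    ring
  have h1 : c * (g * x) = x * g := by
    rw [hc]
    group
  have h2 : uu c * (uu g * sh g.s (uu x)) = uu x * uu g := by
    have e1 : uu (c * (g * x)) = uu c * (uu g * sh g.s (uu x)) := by
      rw [uu_mul c, uu_mul g, hcs, sh_zero]
    have e2 : uu (x * g) = uu x * uu g := by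
      rw [uu_mul, hs, sh_zero]
    rw [← e1, ← e2, h1]
  obtain ⟨h3, h4⟩ := shf N d M (t + 1) g.s _ hu
  have hgu := hG g hg
  have hcu := hG c hcG
  have h5 : sh g.s (uu x - 1) = sh g.s (uu x) - 1 := by
    rw [map_sub, sh_one]
  rw [h5] at h3 h4
  set γ := uu c - 1 with hγ
  set b := uu g - 1 with hb
  set a := uu x - 1 with ha
  set a' := sh g.s (uu x) - 1 with ha'
  have e1 : uu c = 1 + γ := by rw [hγ]; abel
  have e2 : uu g = 1 + b := by rw [hb]; abel
  have e3 : uu x = 1 + a := by rw [ha]; abel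
  have e4 : sh g.s (uu x) = 1 + a' := by rw [ha']; abel
  rw [e1, e4, e3, e2] at h2
  have ha'1 : a' ∈ (wtF N d M).F 1 := (wtF N d M).anti (by omega) h3
  refine mem_of_mul_one_add (wtF N d M) hcu (e := b + a' + b * a') ?_ ?_
  · exact Submodule.add_mem _ (Submodule.add_mem _ hgu ha'1)
      ((wtF N d M).anti (by omega) ((wtF N d M).mul hgu ha'1))
  · have e5 : γ * (1 + (b + a' + b * a')) = (1 + γ) * ((1 + b) * (1 + a')) - (1 + b) * (1 + a') := by
      noncomm_ring
    rw [e5, h2]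
    have e6 : (1 + a) * (1 + b) - (1 + b) * (1 + a') = -(a' - a) + a * b - b * a' := by
      noncomm_ring
    rw [e6]
    refine Submodule.sub_mem _ (Submodule.add_mem _ (Submodule.neg_mem _ h4) ?_) ?_
    · exact (wtF N d M).mul hu hgu
    · have := (wtF N d M).mul hgu h3
      rwa [show 1 + (t + 1) = t + 1 + 1 by ring] at this

/-- the series -/
def HS {N d : ℕ} (M : ℕ) (G : Subgroup (BG N d))
    (hG : ∀ x ∈ G, uu x - 1 ∈ (wtF N d M).F 1) : ℕ → Subgroup G
  | 0 => ⊤
  | t + 1 => HH M G hG t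

theorem T_UNI : S_UNI := by
  intro N d M G hG
  have hG' : ∀ x ∈ G, uu x - 1 ∈ (wtF N d M).F 1 := hG
  rw [nilpotent_iff_finite_descending_central_series]
  refine ⟨M * N + 1, HS M G hG', ⟨rfl, ?_⟩, ?_⟩
  · intro x n hx g
    rw [commutatorElement_def]
    cases n with
    | zero =>
      show _ ∈ HH M G hG' 0
      rw [mem_HH]
      refine ⟨?_, hG' _ (x * g * x⁻¹ * g⁻¹).2⟩
      simp only [Subgroup.coe_mul, Subgroup.coe_inv, BG.mul_s, BG.inv_s]
      ring
    | succ t =>
      have hx' : x ∈ HH M G hG' t := hx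
      show _ ∈ HH M G hG' (t + 1)
      rw [mem_HH] at hx' ⊢
      refine ⟨?_, ?_⟩
      · simp only [Subgroup.coe_mul, Subgroup.coe_inv, BG.mul_s, BG.inv_s]
        ring
      · simp only [Subgroup.coe_mul, Subgroup.coe_inv]
        exact comm_mem hG' x.2 g.2 hx'.1 hx'.2
  · rw [eq_bot_iff]
    intro x hx
    have hx' : x ∈ HH M G hG' (M * N) := hx
    rw [mem_HH] at hx'
    obtain ⟨h1, h2⟩ := hx'
    have h3 := (wtF N d M).bot _ h2
    rw [Subgroup.mem_bot]
    apply Subtype.ext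
    apply BG.ext
    · funext p
      apply Units.ext
      have := congrFun (sub_eq_zero.1 h3) p
      exact this
    · exact h1

end Run7.h502.NL
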