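import Pool.Agent.Run7.h502.NL.G0
import Pool.Agent.Run7.h502.NL.UNI

/-!
# Project NL: preparations for the piece F4
-/

set_option autoImplicit false

namespace Run7.h502.NL

open Finset Filter Topology Pool.Agent.TH91.RF Pool.Agent.TH91.NB Pool.Agent.TH91.LG
open scoped commutatorElement
open Run7.h664.NL

/-! ### the weight filtration -/

theorem wt_smul {N d M m t : ℕ} (Q : Fin d → Polynomial ℝ) (x : Mt N) (hx : x ∈ (mF N).F m)
    (hQ : ∀ i, (Q i).natDegree + t ≤ M * m) :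
    (fun p : ℤ × Fin d => (Q p.2).eval (p.1 : ℝ) • x) ∈ (wtF N d M).F t := by
  rw [mem_wtF]
  intro i r s
  by_cases h : (s : ℕ) < r + m
  · refine ⟨0, fun l => ?_, Or.inl rfl⟩
    show ((Q i).eval (l : ℝ) • x) r s = _
    rw [Matrix.smul_apply, J887.mem_F.1 hx r s h]
    simp
  · refine ⟨Q i * Polynomial.C (x r s), fun l => ?_, Or.inr ⟨by omega, ?_⟩⟩
    · rw [Polynomial.eval_mul, Polynomial.eval_C]
      rfl
    · have h1 := Polynomial.natDegree_mul_C_le (Q i) (x r s)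
      have h2 := hQ i
      have h3 : M * m ≤ M * ((s : ℕ) - r) := Nat.mul_le_mul_left _ (by omega)
      omega

/-- the exponential in the ring of the functions is pointwise -/
theorem exp_apply {N d M : ℕ} {x : AF N d} (hx : x ∈ (wtF N d M).F 1) (p : ℤ × Fin d) :
    IsNilpotent.exp x p = IsNilpotent.exp (x p) :=
  IsNilpotent.map_exp ((wtF N d M).nilp hx) (Pi.evalRingHom (fun _ : ℤ × Fin d => Mt N) p)

/-! ### powers of exponentials -/

theorem E_zpow {N : ℕ} {x : Mt N} (hx : x ∈ (mF N).F 1) (n : ℤ) :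
    (((E x) ^ n : (Mt N)ˣ) : Mt N) = IsNilpotent.exp ((n : ℝ) • x) := by
  have h := rho_zpow (Φ := mF N) (Units.coeHom (Mt N)) hx (E_val hx) n
  rw [Units.coeHom_apply] at h
  rw [h, Int.cast_smul_eq_zsmul ℝ]

theorem E_zpow_sum {N : ℕ} {x : Mt N} (hx : x ∈ (mF N).F 1) (n : ℤ) :
    (((E x) ^ n : (Mt N)ˣ) : Mt N) =
      ∑ m ∈ range (N + 1), ((m.factorial : ℝ)⁻¹ * (n : ℝ) ^ m) • x ^ m := by
  rw [E_zpow hx, (mF N).exp_eq (mF_smul _ hx)]
  refine sum_congr rfl fun m _ => ?_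
  rw [smul_pow, ← Rat.cast_smul_eq_qsmul ℝ, smul_smul]
  push_cast
  rfl

section main

variable {N d : ℕ} (C : Core N) (P : Fin d → Polynomial ℤ)

/-- the sequence `γ ^ (p_i (l))` -/
noncomputable def gp : AF N d := fun p => (((E C.Mc) ^ ((P p.2).eval p.1) : (Mt N)ˣ) : Mt N)

/-- the sequence `γ ^ (- p_i (l))` -/
noncomputable def gm : AF N d := fun p => (((E C.Mc) ^ (-((P p.2).eval p.1)) : (Mt N)ˣ) : Mt N)

theorem eval_castR (Q : Polynomial ℤ) (l : ℤ) :
    ((Q.eval l : ℤ) : ℝ) = (Q.map (Int.castRingHom ℝ)).eval (l : ℝ) := by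
  rw [Polynomial.eval_intCast_map]
  rfl

theorem pow_mem_mF {x : Mt N} (hx : x ∈ (mF N).F 1) (m : ℕ) : x ^ m ∈ (mF N).F m := by
  rcases Nat.eq_zero_or_pos m with rfl | hm
  · rw [pow_zero, J887.mem_F]
    intro a b hab
    rw [Matrix.one_apply_ne]
    intro h
    rw [h] at hab
    omega
  · exact (mF N).pow_mem hx m hm

theorem pw_mem {M : ℕ} (hP : ∀ i, (P i).natDegree ≤ M) {x : Mt N} (hx : x ∈ (mF N).F 1) (ε : ℤ) :
    (fun p : ℤ × Fin d => (((E x) ^ (ε * ((P p.2).eval p.1)) : (Mt N)ˣ) : Mt N)) ∈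
      (wtF N d M).F 0 := by
  have e : (fun p : ℤ × Fin d => (((E x) ^ (ε * ((P p.2).eval p.1)) : (Mt N)ˣ) : Mt N)) =
      ∑ m ∈ range (N + 1), (fun p : ℤ × Fin d =>
        (Polynomial.C ((m.factorial : ℝ)⁻¹ * (ε : ℝ) ^ m) *
          ((P p.2).map (Int.castRingHom ℝ)) ^ m).eval (p.1 : ℝ) • x ^ m) := by
    funext p
    rw [E_zpow_sum hx, Finset.sum_apply]
    refine sum_congr rfl fun m _ => ?_
    congr 1
    rw [Polynomial.eval_mul, Polynomial.eval_C, Polynomial.eval_pow, ← eval_castR]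
    push_cast
    ring
  rw [e]
  refine Submodule.sum_mem _ fun m _ => wt_smul (fun i =>
    Polynomial.C ((m.factorial : ℝ)⁻¹ * (ε : ℝ) ^ m) * ((P i).map (Int.castRingHom ℝ)) ^ m) _
    (pow_mem_mF hx m) fun i => ?_
  show (Polynomial.C ((m.factorial : ℝ)⁻¹ * (ε : ℝ) ^ m) *
    ((P i).map (Int.castRingHom ℝ)) ^ m).natDegree + 0 ≤ M * m
  have h1 := Polynomial.natDegree_C_mul_le ((m.factorial : ℝ)⁻¹ * (ε : ℝ) ^ m)
    (((P i).map (Int.castRingHom ℝ)) ^ m)
  have h2 : (((P i).map (Int.castRingHom ℝ)) ^ m).natDegree ≤ m * M := by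
    refine Polynomial.natDegree_pow_le_of_le m ?_
    exact Polynomial.natDegree_map_le.trans (hP i)
  rw [mul_comm M m]
  omega

theorem gp_mem {M : ℕ} (hP : ∀ i, (P i).natDegree ≤ M) : gp C P ∈ (wtF N d M).F 0 := by
  have := pw_mem P hP C.supMc 1
  simp only [one_mul] at this
  exact this

theorem gm_mem {M : ℕ} (hP : ∀ i, (P i).natDegree ≤ M) : gm C P ∈ (wtF N d M).F 0 := by
  have := pw_mem P hP C.supMc (-1)
  simp only [neg_mul, one_mul] at this
  exact this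

/-- `b⁻¹ S^h b` -/
noncomputable def cc (h : ℤ) (p : ℤ × Fin d) : (Mt N)ˣ := (bb C P p)⁻¹ * bb C P (p.1 + h, p.2)

theorem cc_add (h h' : ℤ) (p : ℤ × Fin d) :
    cc C P (h + h') p = cc C P h p * cc C P h' (p.1 + h, p.2) := by
  unfold cc
  rw [show (p.1 + h, p.2).1 + h' = p.1 + (h + h') by
    show p.1 + h + h' = _
    ring]
  group

/-- the increment of the polynomial -/
def dl (h : ℤ) (p : ℤ × Fin d) : ℤ := (P p.2).eval (p.1 + h) - (P p.2).eval p.1

theorem cc_eq (h : ℤ) (p : ℤ × Fin d) :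
    cc C P h p = E C.Mc ^ ((P p.2).eval p.1) * (E C.Mg ^ (dl P h p) * E C.Mc ^ (-(dl P h p))) *
      E C.Mc ^ (-((P p.2).eval p.1)) := by
  unfold cc bb dl
  simp only [mul_inv_rev, neg_sub, zpow_sub, zpow_neg, inv_inv]
  group

variable (Z : ℕ → Mt N)

/-- the logarithm of `b⁻¹ S^h b` -/
noncomputable def LL (h : ℤ) : AF N d := fun p =>
  gp C P p * (∑ n ∈ range (N + 1), ((dl P h p : ℤ) : ℝ) ^ n • Z n) * gm C P p

theorem gp_gm (p : ℤ × Fin d) : gp C P p * gm C P p = 1 := by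
  unfold gp gm
  rw [← Units.val_mul, ← zpow_add, add_neg_cancel, zpow_zero, Units.val_one]

theorem gm_gp (p : ℤ × Fin d) : gm C P p * gp C P p = 1 := by
  unfold gp gm
  rw [← Units.val_mul, ← zpow_add, neg_add_cancel, zpow_zero, Units.val_one]

theorem sumZ_mem (hZ : ∀ n, Z n ∈ (mF N).F (max 1 n)) (c : ℝ) :
    (∑ n ∈ range (N + 1), c ^ n • Z n) ∈ (mF N).F 1 :=
  Submodule.sum_mem _ fun n _ => mF_smul _ ((mF N).anti (by omega) (hZ n))

theorem exp_LL (hZ : ∀ n, Z n ∈ (mF N).F (max 1 n))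
    (hs : ∀ s : ℚ, IsNilpotent.exp (s • C.Mg) * IsNilpotent.exp (s • (-C.Mc)) =
        IsNilpotent.exp (∑ n ∈ range (N + 1), s ^ n • Z n)) (h : ℤ) (p : ℤ × Fin d) :
    IsNilpotent.exp (LL C P Z h p) = (cc C P h p : Mt N) := by
  have h1 : IsNilpotent.exp (∑ n ∈ range (N + 1), ((dl P h p : ℤ) : ℝ) ^ n • Z n) =
      ((E C.Mg ^ (dl P h p) * E C.Mc ^ (-(dl P h p)) : (Mt N)ˣ) : Mt N) := by
    rw [Units.val_mul, E_zpow C.supMg, E_zpow C.supMc]
    have h2 := hs (dl P h p : ℚ)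
    have e1 : ((dl P h p : ℤ) : ℚ) • C.Mg = ((dl P h p : ℤ) : ℝ) • C.Mg := by
      rw [← Rat.cast_smul_eq_qsmul ℝ]
      push_cast
      rfl
    have e2 : ((dl P h p : ℤ) : ℚ) • (-C.Mc) = ((-(dl P h p) : ℤ) : ℝ) • C.Mc := by
      rw [← Rat.cast_smul_eq_qsmul ℝ, smul_neg, ← neg_smul]
      push_cast
      rfl
    have e3 : ∑ n ∈ range (N + 1), ((dl P h p : ℤ) : ℚ) ^ n • Z n =
        ∑ n ∈ range (N + 1), ((dl P h p : ℤ) : ℝ) ^ n • Z n := by
      refine sum_congr rfl fun n _ => ?_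
      rw [← Rat.cast_smul_eq_qsmul ℝ]
      push_cast
      rfl
    rw [e1, e2, e3] at h2
    exact h2.symm
  unfold LL
  rw [exp_conj (gp_gm C P p) (gm_gp C P p) ((mF N).nilp (sumZ_mem Z hZ _)), h1, cc_eq,
    Units.val_mul, Units.val_mul]
  rfl

theorem natDegree_dl {M : ℕ} (hM : 1 ≤ M) (hP : ∀ i, (P i).natDegree ≤ M) (h : ℤ) (i : Fin d) :
    (((P i).map (Int.castRingHom ℝ)).comp (Polynomial.X + Polynomial.C (h : ℝ)) -
      (P i).map (Int.castRingHom ℝ)).natDegree + 1 ≤ M := by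
  rcases natDegree_shift_sub ((P i).map (Int.castRingHom ℝ)) (h : ℝ) with h1 | h1
  · rw [h1, Polynomial.natDegree_zero]
    omega
  · exact h1.trans (Polynomial.natDegree_map_le.trans (hP i))

theorem dl_eval (h : ℤ) (p : ℤ × Fin d) : ((dl P h p : ℤ) : ℝ) =
    (((P p.2).map (Int.castRingHom ℝ)).comp (Polynomial.X + Polynomial.C (h : ℝ)) -
      (P p.2).map (Int.castRingHom ℝ)).eval (p.1 : ℝ) := by
  unfold dl
  rw [Int.cast_sub, eval_castR, eval_castR, Polynomial.eval_sub, Polynomial.eval_comp,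
    Polynomial.eval_add, Polynomial.eval_X, Polynomial.eval_C]
  push_cast
  rfl

theorem LL_mem {M : ℕ} (hM : 1 ≤ M) (hP : ∀ i, (P i).natDegree ≤ M) (h0 : Z 0 = 0)
    (hZ : ∀ n, Z n ∈ (mF N).F (max 1 n)) (h : ℤ) : LL C P Z h ∈ (wtF N d M).F 1 := by
  have e : LL C P Z h = gp C P * (∑ n ∈ range (N + 1), (fun p : ℤ × Fin d =>
      ((((P p.2).map (Int.castRingHom ℝ)).comp (Polynomial.X + Polynomial.C (h : ℝ)) -
      (P p.2).map (Int.castRingHom ℝ)) ^ n).eval (p.1 : ℝ) • Z n)) * gm C P := by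
    funext p
    rw [Pi.mul_apply, Pi.mul_apply, Finset.sum_apply]
    unfold LL
    congr 2
    refine sum_congr rfl fun n _ => ?_
    rw [Polynomial.eval_pow, ← dl_eval]
  have key : (∑ n ∈ range (N + 1), (fun p : ℤ × Fin d =>
      ((((P p.2).map (Int.castRingHom ℝ)).comp (Polynomial.X + Polynomial.C (h : ℝ)) -
      (P p.2).map (Int.castRingHom ℝ)) ^ n).eval (p.1 : ℝ) • Z n)) ∈ (wtF N d M).F 1 := by
    refine Submodule.sum_mem _ fun n _ => ?_
    rcases Nat.eq_zero_or_pos n with rfl | hn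
    · rw [h0]
      simp only [smul_zero]
      exact Submodule.zero_mem _
    · refine wt_smul (fun i => (((P i).map (Int.castRingHom ℝ)).comp
        (Polynomial.X + Polynomial.C (h : ℝ)) - (P i).map (Int.castRingHom ℝ)) ^ n) _
        ((mF N).anti (Nat.le_max_right 1 n) (hZ n)) fun i => ?_
      show ((((P i).map (Int.castRingHom ℝ)).comp (Polynomial.X + Polynomial.C (h : ℝ)) -
        (P i).map (Int.castRingHom ℝ)) ^ n).natDegree + 1 ≤ M * n
      have h1 := natDegree_dl P hM hP h i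
      have h2 : ((((P i).map (Int.castRingHom ℝ)).comp (Polynomial.X + Polynomial.C (h : ℝ)) -
        (P i).map (Int.castRingHom ℝ)) ^ n).natDegree ≤ n * (M - 1) :=
        Polynomial.natDegree_pow_le_of_le n (by omega)
      have h3 : n * (M - 1) + n = M * n := by
        obtain ⟨M', rfl⟩ := Nat.exists_eq_succ_of_ne_zero (by omega : M ≠ 0)
        rw [Nat.succ_sub_one, Nat.succ_eq_add_one]
        ring
      omega
  rw [e]
  have h1 := (wtF N d M).mul ((wtF N d M).mul (gp_mem C P hP) key) (gm_mem C P hP)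
  exact h1

theorem LL_zero (h0 : Z 0 = 0) : LL C P Z 0 = 0 := by
  funext p
  unfold LL dl
  rw [add_zero, sub_self, Int.cast_zero, sum_eq_zero, mul_zero, zero_mul]
  · rfl
  · intro n _
    rcases Nat.eq_zero_or_pos n with rfl | hn
    · rw [h0, smul_zero]
    · rw [zero_pow (by omega), zero_smul]

/-- the polynomial in `h` -/
noncomputable def RR (p : ℤ × Fin d) : Polynomial ℤ :=
  Polynomial.taylor p.1 (P p.2) - Polynomial.C ((P p.2).eval p.1)

theorem RR_eval (h : ℤ) (p : ℤ × Fin d) : (RR P p).eval h = dl P h p := by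
  unfold RR dl
  rw [Polynomial.eval_sub, Polynomial.eval_C, Polynomial.taylor_eval, add_comm h]

theorem RR_coeff_zero (p : ℤ × Fin d) : (RR P p).coeff 0 = 0 := by
  unfold RR
  rw [Polynomial.coeff_sub, Polynomial.taylor_coeff_zero, Polynomial.coeff_C_zero, sub_self]

theorem RR_coeff_one (p : ℤ × Fin d) : (RR P p).coeff 1 = (P p.2).derivative.eval p.1 := by
  unfold RR
  rw [Polynomial.coeff_sub, Polynomial.taylor_coeff_one, Polynomial.coeff_C_succ, sub_zero]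

theorem RR_natDegree {M : ℕ} (hP : ∀ i, (P i).natDegree ≤ M) (p : ℤ × Fin d) :
    (RR P p).natDegree ≤ M := by
  unfold RR
  refine (Polynomial.natDegree_sub_le _ _).trans ?_
  rw [Polynomial.natDegree_taylor, Polynomial.natDegree_C]
  exact max_le (hP _) (Nat.zero_le _)

/-- the coefficients of `LL` -/
noncomputable def zz (m : ℕ) : AF N d := fun p =>
  gp C P p * (∑ n ∈ range (N + 1), ((((RR P p) ^ n).coeff m : ℤ) : ℝ) • Z n) * gm C P p

theorem LL_eq {M : ℕ} (hP : ∀ i, (P i).natDegree ≤ M) (D : ℕ) (hD : N * M ≤ D) (h : ℤ) :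
    LL C P Z h = ∑ m ∈ range (D + 1), ((h : ℝ) ^ m) • zz C P Z m := by
  funext p
  rw [Finset.sum_apply]
  unfold LL zz
  have e : ∀ m ∈ range (D + 1), (((h : ℝ) ^ m) • (fun p : ℤ × Fin d =>
      gp C P p * (∑ n ∈ range (N + 1), ((((RR P p) ^ n).coeff m : ℤ) : ℝ) • Z n) * gm C P p)) p =
      gp C P p * (∑ n ∈ range (N + 1),
        ((h : ℝ) ^ m * ((((RR P p) ^ n).coeff m : ℤ) : ℝ)) • Z n) * gm C P p := by
    intro m _
    rw [Pi.smul_apply, ← smul_mul_assoc, ← mul_smul_comm, smul_sum]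
    simp_rw [smul_smul]
  rw [sum_congr rfl e, ← sum_mul, ← mul_sum]
  congr 2
  rw [sum_comm]
  refine sum_congr rfl fun n hn => ?_
  rw [← sum_smul]
  congr 1
  rw [← RR_eval, ← Int.cast_pow, ← Polynomial.eval_pow,
    Polynomial.eval_eq_sum_range' (n := D + 1)]
  · push_cast
    exact sum_congr rfl fun m _ => mul_comm _ _
  · have h1 := Polynomial.natDegree_pow_le_of_le n (RR_natDegree P hP p)
    have h2 : n * M ≤ N * M := Nat.mul_le_mul_right _ (by rw [mem_range] at hn; omega)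
    omega

theorem coeff_pow_one (R : Polynomial ℤ) (h0 : R.coeff 0 = 0) (n : ℕ) (hn : 2 ≤ n) :
    (R ^ n).coeff 1 = 0 := by
  obtain ⟨S, rfl⟩ := Polynomial.X_dvd_iff.2 h0
  rw [mul_pow, Polynomial.coeff_X_pow_mul', if_neg (by omega)]

theorem zz_one (h0 : Z 0 = 0) (h1 : Z 1 = C.Mg - C.Mc) :
    zz C P Z 1 = Bf C P (C.Mg - C.Mc) 0 := by
  rcases Nat.eq_zero_or_pos N with rfl | hN
  · funext p
    ext i j
    exact i.elim0
  funext p
  unfold zz Bf Af
  have e : ∑ n ∈ range (N + 1), ((((RR P p) ^ n).coeff 1 : ℤ) : ℝ) • Z n =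
      (((P p.2).derivative.eval p.1 : ℤ) : ℝ) • (C.Mg - C.Mc) := by
    rw [sum_eq_single 1]
    · rw [pow_one, RR_coeff_one, h1]
    · intro n _ hn
      rcases Nat.eq_zero_or_pos n with rfl | hn0
      · rw [h0, smul_zero]
      · rw [coeff_pow_one _ (RR_coeff_zero P p) n (by omega)]
        simp
    · intro h
      exact absurd (mem_range.2 (by omega)) h
  rw [e, mul_smul_comm, smul_mul_assoc]
  unfold gp gm
  simp only [add_zero]

end main

end Run7.h502.NL
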