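import Pool.Agent.Run7.h664.NL.Iface

/-!
# Project NL: the piece G0
-/

set_option autoImplicit false

namespace Run7.h502.NL

open Finset Filter Topology Pool.Agent.TH91.RF Pool.Agent.TH91.NB Pool.Agent.TH91.LG
open scoped commutatorElement
open Run7.h664.NL

theorem mF_smul {N t : ℕ} (c : ℝ) {x : Mt N} (hx : x ∈ (mF N).F t) : c • x ∈ (mF N).F t :=
  (J887.FR N t).smul_mem c hx

/-- the space `k + ℝ Mc` -/
noncomputable def kM {N : ℕ} (C : Core N) : Submodule ℝ (Mt N) := C.k ⊔ Submodule.span ℝ {C.Mc}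

theorem mem_kM {N : ℕ} {C : Core N} {x : Mt N} : x ∈ kM C ↔ ∃ a ∈ C.k, ∃ s : ℝ, x = a + s • C.Mc := by
  unfold kM
  rw [Submodule.mem_sup]
  constructor
  · rintro ⟨a, ha, b, hb, rfl⟩
    obtain ⟨s, rfl⟩ := Submodule.mem_span_singleton.1 hb
    exact ⟨a, ha, s, rfl⟩
  · rintro ⟨a, ha, s, rfl⟩
    exact ⟨a, ha, s • C.Mc, Submodule.mem_span_singleton.2 ⟨s, rfl⟩, rfl⟩

theorem kM_le {N : ℕ} {C : Core N} {x : Mt N} (hx : x ∈ kM C) : x ∈ (mF N).F 1 := by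
  obtain ⟨a, ha, s, rfl⟩ := mem_kM.1 hx
  exact Submodule.add_mem _ (C.sup a ha) (mF_smul s C.supMc)

theorem kM_of_k {N : ℕ} {C : Core N} {x : Mt N} (hx : x ∈ C.k) : x ∈ kM C :=
  mem_kM.2 ⟨x, hx, 0, by simp⟩

theorem Mc_mem {N : ℕ} {C : Core N} : C.Mc ∈ kM C := mem_kM.2 ⟨0, C.k.zero_mem, 1, by simp⟩

theorem Mg_mem {N : ℕ} {C : Core N} : C.Mg ∈ kM C := by
  refine mem_kM.2 ⟨_, C.diff, 1, ?_⟩
  rw [one_smul, sub_add_cancel]

theorem br_expand {N : ℕ} (a b c : Mt N) (s t : ℝ) :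
    (a + s • c) * (b + t • c) - (b + t • c) * (a + s • c) =
      (a * b - b * a) + s • (c * b - b * c) - t • (c * a - a * c) := by
  simp only [add_mul, mul_add, smul_mul_assoc, mul_smul_comm, smul_sub, smul_add]
  rw [smul_comm t s (c * c)]
  abel

theorem kM_br {N : ℕ} {C : Core N} {x y : Mt N} (hx : x ∈ kM C) (hy : y ∈ kM C) :
    x * y - y * x ∈ C.k := by
  obtain ⟨a, ha, s, rfl⟩ := mem_kM.1 hx
  obtain ⟨b, hb, t, rfl⟩ := mem_kM.1 hy
  rw [br_expand]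
  exact C.k.sub_mem (C.k.add_mem (C.br a ha b hb) (C.k.smul_mem s (C.brMc b hb)))
    (C.k.smul_mem t (C.brMc a ha))

theorem qs {A : Type*} [AddCommGroup A] [Module ℝ A] [Module ℚ A] (W : Submodule ℝ A) (q : ℚ)
    {x : A} (hx : x ∈ W) : q • x ∈ W := rat_smul_mem W q hx

theorem kM_lat {N : ℕ} (C : Core N) : LieLat (mF N) (kM C).toAddSubgroup := by
  refine ⟨fun x hx => kM_le hx, fun u hu v hv => ?_⟩
  exact qs (kM C) _ (kM_of_k (kM_br hu hv))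

theorem k_idl {N : ℕ} (C : Core N) : LieIdl N (kM C).toAddSubgroup C.k.toAddSubgroup := by
  refine ⟨fun x hx => kM_of_k hx, fun u hu v hv => ?_⟩
  exact qs C.k _ (kM_br hu (kM_of_k hv))

theorem T_G0 : S_G0 := by
  intro N C
  set W := Submodule.span ℝ
    ({x | ∃ u ∈ C.k, ∃ v ∈ C.k, x = u * v - v * u} ∪ {x | ∃ u ∈ C.k, x = C.Mc * u - u * C.Mc})
    with hW
  have hWk : W ≤ C.k := by
    rw [hW, Submodule.span_le]
    rintro x (⟨u, hu, v, hv, rfl⟩ | ⟨u, hu, rfl⟩)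
    · exact C.br u hu v hv
    · exact C.brMc u hu
  have hW1 : ∀ u ∈ C.k, ∀ v ∈ C.k, u * v - v * u ∈ W := fun u hu v hv =>
    Submodule.subset_span (Or.inl ⟨u, hu, v, hv, rfl⟩)
  have hW2 : ∀ u ∈ C.k, C.Mc * u - u * C.Mc ∈ W := fun u hu =>
    Submodule.subset_span (Or.inr ⟨u, hu, rfl⟩)
  have hJ : LieIdl N (kM C).toAddSubgroup W.toAddSubgroup := by
    refine ⟨fun x hx => kM_of_k (hWk hx), fun u hu v hv => ?_⟩
    obtain ⟨a, ha, s, rfl⟩ := mem_kM.1 (show u ∈ kM C from hu)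
    have hvk : v ∈ C.k := hWk hv
    refine qs W _ ?_
    have e := br_expand a v C.Mc s 0
    rw [zero_smul, add_zero, zero_smul, sub_zero] at e
    rw [e]
    exact W.add_mem (hW1 a ha v hvk) (W.smul_mem s (hW2 v hvk))
  have hMc : (-C.Mc) ∈ (kM C).toAddSubgroup := (kM C).neg_mem Mc_mem
  obtain ⟨j, hj, h⟩ := (kM_lat C).exp_mul_add hJ (x := C.Mg) (y := -C.Mc) Mg_mem hMc (by
    refine qs W _ ?_
    have e : C.Mg * -C.Mc - -C.Mc * C.Mg = C.Mc * (C.Mg - C.Mc) - (C.Mg - C.Mc) * C.Mc := by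
      noncomm_ring
    rw [e]
    exact hW2 _ C.diff)
  have hjk : j ∈ C.k := hWk hj
  refine ⟨j, hj, hjk, ?_⟩
  apply Units.ext
  rw [Units.val_mul, E_val C.supMg, E_inv_val C.supMc, h, E_val, sub_eq_add_neg]
  exact C.sup _ (C.k.add_mem C.diff hjk)

end Run7.h502.NL
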